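import Mathlib
import Pool.Agent.R35.BCBuild

set_option autoImplicit false

/-!
# Fractional greedy bound versus induced-subgraph density bound: the gap is n^(1-o(1))
-/

namespace Pool.Agent.Results.MP_28a56a_co.GapGrowth

open Finset Filter Classical Topology

/-- A bipartite graph with sides Fin a and Fin b and edge relation E, without isolated
vertices. -/
structure BipGraph where
  /-- size of the first side -/
  a : ℕ
  /-- size of the second side -/
  b : ℕ
  /-- edge relation -/
  E : Fin a → Fin b → Prop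
  /-- no isolated vertex on the first side -/
  left : ∀ i, ∃ j, E i j
  /-- no isolated vertex on the second side -/
  right : ∀ j, ∃ i, E i j

namespace BipGraph

/-- Bicliques: non-empty vertex sets S, T of the two sides with all pairs in S × T edges. -/
def IsBiclique (G : BipGraph) (S : Finset (Fin G.a)) (T : Finset (Fin G.b)) : Prop :=
  S.Nonempty ∧ T.Nonempty ∧ ∀ i ∈ S, ∀ j ∈ T, G.E i j

/-- Number of edges of the subgraph induced by the vertex sets A, B. -/
noncomputable def edges (G : BipGraph) (A : Finset (Fin G.a)) (B : Finset (Fin G.b)) : ℕ :=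
  ((A ×ˢ B).filter (fun p => G.E p.1 p.2)).card

/-- κ of the subgraph induced by the vertex sets A, B: the maximum of |S||T|/(|S|+|T|) over its
bicliques (S, T). -/
noncomputable def kappa (G : BipGraph) (A : Finset (Fin G.a)) (B : Finset (Fin G.b)) : ℝ :=
  sSup {x : ℝ | ∃ S ⊆ A, ∃ T ⊆ B, G.IsBiclique S T ∧
    x = ((S.card : ℝ) * T.card) / (S.card + T.card)}

/-- μ(G): the maximum of e(G')/κ(G') over the induced subgraphs G' with at least one edge. -/
noncomputable def mu (G : BipGraph) : ℝ :=
  sSup {x : ℝ | ∃ A B, 0 < G.edges A B ∧ x = G.edges A B / G.kappa A B}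

/-- η(F) for an edge set F: the minimum of (|S|+|T|)/|F ∩ (S × T)| over the bicliques (S, T)
with F ∩ (S × T) non-empty. -/
noncomputable def eta (G : BipGraph) (F : Finset (Fin G.a × Fin G.b)) : ℝ :=
  sInf {x : ℝ | ∃ S T, G.IsBiclique S T ∧ (F ∩ S ×ˢ T).Nonempty ∧
    x = ((S.card : ℝ) + T.card) / ((F ∩ S ×ˢ T).card : ℝ)}

/-- η*(G): the maximum of |F| η(F) over the non-empty edge sets F. -/
noncomputable def etaStar (G : BipGraph) : ℝ :=
  sSup {x : ℝ | ∃ F : Finset (Fin G.a × Fin G.b), F.Nonempty ∧ (∀ p ∈ F, G.E p.1 p.2) ∧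
    x = (F.card : ℝ) * G.eta F}

end BipGraph

/-- g(n): the maximum of η*(G)/μ(G) over the bipartite graphs G without isolated vertices on at
most n vertices. -/
noncomputable def g (n : ℕ) : ℝ :=
  sSup {x : ℝ | ∃ G : BipGraph, G.a + G.b ≤ n ∧ x = G.etaStar / G.mu}

namespace BipGraph

variable (G : BipGraph)

theorem kappa_bdd (A : Finset (Fin G.a)) (B : Finset (Fin G.b)) :
    BddAbove {x : ℝ | ∃ S ⊆ A, ∃ T ⊆ B, G.IsBiclique S T ∧
      x = ((S.card : ℝ) * T.card) / (S.card + T.card)} := by
  apply Set.Finite.bddAbove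
  apply Set.Finite.subset (Set.finite_range
    (fun p : Finset (Fin G.a) × Finset (Fin G.b) =>
      ((p.1.card : ℝ) * p.2.card) / (p.1.card + p.2.card)))
  rintro x ⟨S, -, T, -, -, rfl⟩
  exact ⟨(S, T), rfl⟩

theorem mu_bdd : BddAbove {x : ℝ | ∃ A B, 0 < G.edges A B ∧
    x = G.edges A B / G.kappa A B} := by
  apply Set.Finite.bddAbove
  apply Set.Finite.subset (Set.finite_range
    (fun p : Finset (Fin G.a) × Finset (Fin G.b) =>
      (G.edges p.1 p.2 : ℝ) / G.kappa p.1 p.2))
  rintro x ⟨A, B, -, rfl⟩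
  exact ⟨(A, B), rfl⟩

theorem etaStar_bdd : BddAbove {x : ℝ | ∃ F : Finset (Fin G.a × Fin G.b), F.Nonempty ∧
    (∀ p ∈ F, G.E p.1 p.2) ∧ x = (F.card : ℝ) * G.eta F} := by
  apply Set.Finite.bddAbove
  apply Set.Finite.subset (Set.finite_range
    (fun F : Finset (Fin G.a × Fin G.b) => (F.card : ℝ) * G.eta F))
  rintro x ⟨F, -, -, rfl⟩
  exact ⟨F, rfl⟩

theorem exists_edge_of_pos {A : Finset (Fin G.a)} {B : Finset (Fin G.b)}
    (h : 0 < G.edges A B) : ∃ i ∈ A, ∃ j ∈ B, G.E i j := by
  unfold edges at h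
  rw [Finset.card_pos] at h
  obtain ⟨p, hp⟩ := h
  rw [Finset.mem_filter, Finset.mem_product] at hp
  exact ⟨p.1, hp.1.1, p.2, hp.1.2, hp.2⟩

theorem half_le_kappa {A : Finset (Fin G.a)} {B : Finset (Fin G.b)}
    (h : 0 < G.edges A B) : 1 / 2 ≤ G.kappa A B := by
  obtain ⟨i, hi, j, hj, hij⟩ := G.exists_edge_of_pos h
  apply le_csSup (G.kappa_bdd A B)
  refine ⟨{i}, Finset.singleton_subset_iff.2 hi, {j}, Finset.singleton_subset_iff.2 hj,
    ⟨Finset.singleton_nonempty _, Finset.singleton_nonempty _, ?_⟩, ?_⟩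
  · intro i' hi' j' hj'
    rw [Finset.mem_singleton] at hi' hj'
    rw [hi', hj']; exact hij
  · norm_num

theorem kappa_le (A : Finset (Fin G.a)) (B : Finset (Fin G.b)) :
    G.kappa A B ≤ ((G.a + G.b : ℕ) : ℝ) / 4 := by
  unfold kappa
  apply Real.sSup_le _ (by positivity)
  rintro x ⟨S, -, T, -, ⟨hS, hT, -⟩, rfl⟩
  have h1 : (0 : ℝ) < S.card := by exact_mod_cast hS.card_pos
  have h2 : (0 : ℝ) < T.card := by exact_mod_cast hT.card_pos
  have h3 : (S.card : ℝ) ≤ G.a := by
    have := Finset.card_le_univ S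
    rw [Fintype.card_fin] at this
    exact_mod_cast this
  have h4 : (T.card : ℝ) ≤ G.b := by
    have := Finset.card_le_univ T
    rw [Fintype.card_fin] at this
    exact_mod_cast this
  rw [div_le_div_iff₀ (by positivity) (by norm_num)]
  push_cast
  nlinarith [sq_nonneg ((S.card : ℝ) - T.card)]

theorem eta_le_two {F : Finset (Fin G.a × Fin G.b)} (hF : F.Nonempty)
    (hE : ∀ p ∈ F, G.E p.1 p.2) : G.eta F ≤ 2 := by
  obtain ⟨p, hp⟩ := hF
  unfold eta
  apply csInf_le
  · refine ⟨0, ?_⟩
    rintro x ⟨S, T, -, -, rfl⟩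
    positivity
  · refine ⟨{p.1}, {p.2}, ⟨Finset.singleton_nonempty _, Finset.singleton_nonempty _, ?_⟩, ?_, ?_⟩
    · intro i' hi' j' hj'
      rw [Finset.mem_singleton] at hi' hj'
      rw [hi', hj']; exact hE p hp
    · refine ⟨p, ?_⟩
      simp [hp]
    · have : F ∩ {p.1} ×ˢ {p.2} = {p} := by
        ext x
        simp only [Finset.mem_inter, Finset.mem_product, Finset.mem_singleton]
        constructor
        · rintro ⟨-, h1, h2⟩; exact Prod.ext h1 h2
        · rintro rfl; exact ⟨hp, rfl, rfl⟩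
      rw [this]
      norm_num

theorem ratio_le (n : ℕ) (hn : G.a + G.b ≤ n) : G.etaStar / G.mu ≤ n / 2 := by
  by_cases he : 0 < G.edges univ univ
  · have h1 : G.etaStar ≤ 2 * G.edges univ univ := by
      unfold etaStar
      apply Real.sSup_le _ (by positivity)
      rintro x ⟨F, hF, hE, rfl⟩
      have h2 := G.eta_le_two hF hE
      have h3 : (F.card : ℝ) ≤ G.edges univ univ := by
        have : F.card ≤ G.edges univ univ := by
          unfold edges
          apply Finset.card_le_card
          intro p hp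
          rw [Finset.mem_filter]
          exact ⟨by simp, hE p hp⟩
        exact_mod_cast this
      have h4 : (0 : ℝ) ≤ F.card := Nat.cast_nonneg _
      nlinarith
    have hk := G.half_le_kappa he
    have hk' := G.kappa_le univ univ
    have h2 : (G.edges univ univ : ℝ) / G.kappa univ univ ≤ G.mu :=
      le_csSup G.mu_bdd ⟨univ, univ, he, rfl⟩
    have he' : (0 : ℝ) < G.edges univ univ := by exact_mod_cast he
    have h3 : 0 < (G.edges univ univ : ℝ) / G.kappa univ univ := by positivity
    have h4 : 0 < G.mu := lt_of_lt_of_le h3 h2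
    rw [div_le_iff₀ h4]
    rw [div_le_iff₀ (by linarith)] at h2
    have h5 : ((G.a + G.b : ℕ) : ℝ) ≤ n := by exact_mod_cast hn
    nlinarith
  · have : G.etaStar = 0 := by
      unfold etaStar
      have hempty : {x : ℝ | ∃ F : Finset (Fin G.a × Fin G.b), F.Nonempty ∧
          (∀ p ∈ F, G.E p.1 p.2) ∧ x = (F.card : ℝ) * G.eta F} = ∅ := by
        rw [Set.eq_empty_iff_forall_notMem]
        rintro x ⟨F, ⟨p, hp⟩, hE, -⟩
        apply he
        unfold edges
        rw [Finset.card_pos]
        exact ⟨p, Finset.mem_filter.2 ⟨by simp, hE p hp⟩⟩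
      rw [hempty, Real.sSup_empty]
    rw [this, zero_div]
    positivity

end BipGraph

theorem g_bdd (n : ℕ) : BddAbove {x : ℝ | ∃ G : BipGraph, G.a + G.b ≤ n ∧
    x = G.etaStar / G.mu} := by
  refine ⟨(n : ℝ) / 2, ?_⟩
  rintro x ⟨G, hG, rfl⟩
  exact G.ratio_le n hG

theorem g_le (n : ℕ) : g n ≤ n / 2 := by
  unfold g
  apply Real.sSup_le _ (by positivity)
  rintro x ⟨G, hG, rfl⟩
  exact G.ratio_le n hG

open Pool.Agent.R35.BC in
/-- Lower bound for g from a good pair of relations. -/
theorem lower {N m n : ℕ} (hn : 2 * m ≤ n) (hm : 0 < m) (hN : 0 < N)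
    {E E' : Fin m → Fin m → Prop} {L C : ℝ} (hL : 0 < L) (hC : 0 < C) (hG : Good N E E' L C)
    (hleft : ∀ a, ∃ b, E a b) (hright : ∀ b, ∃ a, E a b) (hpos : 0 < cnt E' univ univ) :
    (cnt E' univ univ : ℝ) / L / (C * N * (2 * m)) ≤ g n := by
  let G : BipGraph := ⟨m, m, E, hleft, hright⟩
  have hN' : (0 : ℝ) < N := by exact_mod_cast hN
  have hm' : (0 : ℝ) < m := by exact_mod_cast hm
  have h1 : G.etaStar / G.mu ≤ g n := le_csSup (g_bdd n) ⟨G, by simp only [G]; omega, rfl⟩
  refine le_trans ?_ h1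
  -- η*
  set F : Finset (Fin m × Fin m) := (univ ×ˢ univ).filter (fun p => E' p.1 p.2) with hF
  have hFcard : F.card = cnt E' univ univ := by rw [cnt_eq_card]
  have hFne : F.Nonempty := by rw [← Finset.card_pos, hFcard]; exact hpos
  have hFE : ∀ p ∈ F, E p.1 p.2 := fun p hp => hG.sub _ _ (Finset.mem_filter.1 hp).2
  have hFin : ∀ S T, ((F ∩ S ×ˢ T).card : ℝ) = cnt E' S T := by
    intro S T
    rw [cnt_eq_card]
    congr 2
    ext p
    rw [Finset.mem_inter, hF, Finset.mem_filter, Finset.mem_filter]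
    simp only [Finset.mem_product, Finset.mem_univ, true_and]
    tauto
  have heta : 1 / L ≤ G.eta F := by
    unfold BipGraph.eta
    apply le_csInf
    · obtain ⟨p, hp⟩ := hFne
      refine ⟨_, {p.1}, {p.2}, ⟨Finset.singleton_nonempty _, Finset.singleton_nonempty _, ?_⟩,
        ⟨p, ?_⟩, rfl⟩
      · intro i' hi' j' hj'
        rw [Finset.mem_singleton] at hi' hj'
        rw [hi', hj']; exact hFE p hp
      · simp [hp]
    · rintro x ⟨S, T, ⟨hS, hT, hST⟩, hne, rfl⟩
      have h2 := hG.sparse S T hST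
      rw [← hFin] at h2
      have h3 : (0 : ℝ) < ((F ∩ S ×ˢ T).card : ℝ) := by exact_mod_cast hne.card_pos
      rw [div_le_div_iff₀ hL h3]
      linarith
  have hstar : (cnt E' univ univ : ℝ) / L ≤ G.etaStar := by
    have h2 : (F.card : ℝ) * G.eta F ≤ G.etaStar :=
      le_csSup G.etaStar_bdd ⟨F, hFne, hFE, rfl⟩
    refine le_trans ?_ h2
    rw [hFcard, div_eq_mul_one_div]
    exact mul_le_mul_of_nonneg_left heta (Nat.cast_nonneg _)
  -- μ
  have hmu : G.mu ≤ C * N * (2 * m) := by
    unfold BipGraph.mu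
    apply Real.sSup_le _ (by positivity)
    rintro x ⟨A, B, hAB, rfl⟩
    have hk := G.half_le_kappa hAB
    have hk0 : 0 < G.kappa A B := by linarith
    have h2 := hG.dense (G.kappa A B) hk A B (by
      intro S hS T hT hST
      by_cases hSn : S.Nonempty
      · by_cases hTn : T.Nonempty
        · have h3 : ((S.card : ℝ) * T.card) / (S.card + T.card) ≤ G.kappa A B :=
            le_csSup (G.kappa_bdd A B) ⟨S, hS, T, hT, ⟨hSn, hTn, hST⟩, rfl⟩
          have h4 : (0 : ℝ) < S.card := by exact_mod_cast hSn.card_pos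
          rwa [div_le_iff₀ (by positivity)] at h3
        · rw [Finset.not_nonempty_iff_eq_empty] at hTn
          rw [hTn]
          simp only [Finset.card_empty, Nat.cast_zero, mul_zero, add_zero]
          positivity
      · rw [Finset.not_nonempty_iff_eq_empty] at hSn
        rw [hSn]
        simp only [Finset.card_empty, Nat.cast_zero, zero_mul, zero_add]
        positivity)
    have h3 : (G.edges A B : ℝ) = cnt E A B := by
      rw [cnt_eq_card]; rfl
    rw [div_le_iff₀ hk0, h3]
    refine h2.trans ?_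
    have h4 : (A.card : ℝ) ≤ m := by
      have := Finset.card_le_univ A
      rw [Fintype.card_fin] at this
      exact_mod_cast this
    have h5 : (B.card : ℝ) ≤ m := by
      have := Finset.card_le_univ B
      rw [Fintype.card_fin] at this
      exact_mod_cast this
    have h6 : C * N * ((A.card : ℝ) + B.card) ≤ C * N * (2 * m) := by
      apply mul_le_mul_of_nonneg_left _ (by positivity)
      linarith
    nlinarith
  have hedge : 0 < G.edges univ univ := by
    obtain ⟨p, hp⟩ := hFne
    unfold BipGraph.edges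
    rw [Finset.card_pos]
    exact ⟨p, Finset.mem_filter.2 ⟨by simp, hFE p hp⟩⟩
  have hmu0 : 0 < G.mu := by
    have h2 : (G.edges univ univ : ℝ) / G.kappa univ univ ≤ G.mu :=
      le_csSup G.mu_bdd ⟨univ, univ, hedge, rfl⟩
    have h3 := G.half_le_kappa hedge
    have h4 : (0 : ℝ) < G.edges univ univ := by exact_mod_cast hedge
    have h5 : 0 < (G.edges univ univ : ℝ) / G.kappa univ univ := by positivity
    linarith
  have hnum : 0 ≤ (cnt E' univ univ : ℝ) / L := by positivity
  calc (cnt E' univ univ : ℝ) / L / (C * N * (2 * m)) ≤ (cnt E' univ univ : ℝ) / L / G.mu :=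
        div_le_div_of_nonneg_left hnum hmu0 hmu
    _ ≤ G.etaStar / G.mu := div_le_div_of_nonneg_right hstar hmu0.le

/-- The logarithmic parameter. -/
noncomputable def lam (r N : ℕ) : ℕ := 4 * Nat.clog 2 (16 * N ^ (r + 2)) + 3

theorem lam_le (r N : ℕ) (hN : 3 ≤ N) : (lam r N : ℝ) ≤ (8 * r + 39) * Real.log N := by
  unfold lam
  set q := Nat.clog 2 (16 * N ^ (r + 2)) with hq
  have hNpos : (0 : ℝ) < N := by
    have : 0 < N := by omega
    exact_mod_cast this
  have hx : 1 < 16 * N ^ (r + 2) := by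
    have : 0 < N ^ (r + 2) := by positivity
    omega
  have h1 : 2 ^ q.pred < 16 * N ^ (r + 2) := Nat.pow_pred_clog_lt_self (by norm_num) hx
  have h2 : (2 : ℝ) ^ q.pred < 16 * (N : ℝ) ^ (r + 2) := by exact_mod_cast h1
  have h3 := Real.log_lt_log (by positivity) h2
  rw [Real.log_pow, Real.log_mul (by norm_num) (by positivity), Real.log_pow] at h3
  have h16 : Real.log 16 = 4 * Real.log 2 := by
    rw [show (16 : ℝ) = 2 ^ 4 by norm_num, Real.log_pow]; norm_num
  have hlog2 : 0.5 < Real.log 2 := by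
    have := Real.log_two_gt_d9
    linarith
  have hlogN : 1 ≤ Real.log N := by
    rw [Real.le_log_iff_exp_le hNpos]
    have h4 := Real.exp_one_lt_d9
    have h5 : (3 : ℝ) ≤ N := by exact_mod_cast hN
    linarith
  have hqp : (q : ℝ) ≤ q.pred + 1 := by
    have : q ≤ q.pred + 1 := by rw [Nat.pred_eq_sub_one]; omega
    exact_mod_cast this
  have h6 : (q.pred : ℝ) * Real.log 2 < 4 * Real.log 2 + (r + 2) * Real.log N := by
    rw [h16] at h3
    push_cast at h3
    linarith
  have h7 : (q.pred : ℝ) < 4 + 2 * (r + 2) * Real.log N := by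
    by_contra hcon
    push Not at hcon
    have h8 : (4 + 2 * (r + 2) * Real.log N) * Real.log 2 ≤ q.pred * Real.log 2 :=
      mul_le_mul_of_nonneg_right hcon (by linarith)
    have h9 : 0 ≤ ((r : ℝ) + 2) * Real.log N := by positivity
    nlinarith
  push_cast
  nlinarith

theorem small (r : ℕ) : ∀ᶠ N : ℕ in atTop,
    2 * 4 ^ (r + 2) * ((lam r N : ℝ) * (1 + lam r N) ^ (r + 1)) *
      (3 * (1 + 5 * (lam r N : ℝ)) ^ (r + 1)) ≤ N := by
  set A : ℝ := 8 * r + 39 with hA
  have hApos : 0 < A := by positivity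
  set K : ℝ := 6 * 4 ^ (r + 2) * (6 * A) ^ (2 * r + 3) with hK
  have hKpos : 0 < K := by positivity
  have h1 : (fun x : ℝ => Real.log x ^ (2 * r + 3)) =o[atTop] (id : ℝ → ℝ) :=
    Real.isLittleO_pow_log_id_atTop
  have h2 := (h1.bound (c := 1 / K) (by positivity))
  have h3 := tendsto_natCast_atTop_atTop (R := ℝ) |>.eventually h2
  filter_upwards [h3, eventually_ge_atTop 3] with N hN hN3
  have hNpos : (0 : ℝ) < N := by
    have : 0 < N := by omega
    exact_mod_cast this
  have hlog : 0 ≤ Real.log N := Real.log_natCast_nonneg N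
  simp only [id_eq, Real.norm_eq_abs] at hN
  rw [abs_of_nonneg (pow_nonneg hlog _), abs_of_pos hNpos] at hN
  have hl := lam_le r N hN3
  rw [← hA] at hl
  have hl3 : (3 : ℝ) ≤ lam r N := by
    have : 3 ≤ lam r N := by unfold lam; omega
    exact_mod_cast this
  set l : ℝ := ((lam r N : ℕ) : ℝ)
  have e1 : (1 + l) ^ (r + 1) ≤ (6 * l) ^ (r + 1) := pow_le_pow_left₀ (by linarith) (by linarith) _
  have e2 : (1 + 5 * l) ^ (r + 1) ≤ (6 * l) ^ (r + 1) :=
    pow_le_pow_left₀ (by linarith) (by linarith) _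
  calc 2 * 4 ^ (r + 2) * (l * (1 + l) ^ (r + 1)) * (3 * (1 + 5 * l) ^ (r + 1)) ≤
      2 * 4 ^ (r + 2) * ((6 * l) * (6 * l) ^ (r + 1)) * (3 * (6 * l) ^ (r + 1)) := by
        gcongr
        linarith
    _ = 6 * 4 ^ (r + 2) * (6 * l) ^ (2 * r + 3) := by
        rw [show 2 * r + 3 = (1 + (r + 1)) + (r + 1) by ring, pow_add, pow_add, pow_one]
        ring
    _ ≤ 6 * 4 ^ (r + 2) * (6 * (A * Real.log N)) ^ (2 * r + 3) := by gcongr
    _ = K * Real.log N ^ (2 * r + 3) := by
        rw [hK, show 6 * (A * Real.log N) = (6 * A) * Real.log N by ring,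
          mul_pow (6 * A) (Real.log N), mul_assoc (6 * 4 ^ (r + 2))]
    _ ≤ K * (1 / K * N) := mul_le_mul_of_nonneg_left hN hKpos.le
    _ = N := by field_simp

open Pool.Agent.R35.BC in
theorem pow_le_g (r : ℕ) : ∀ᶠ N : ℕ in atTop, ∀ n : ℕ, 2 * N ^ (r + 2) ≤ n →
    (N : ℝ) ^ r ≤ g n := by
  filter_upwards [small r, eventually_ge_atTop 8] with N hN hN8 n hn
  set q := Nat.clog 2 (16 * N ^ (r + 2)) with hq
  have hq2 : 16 * N ^ (r + 2) ≤ 2 ^ q := Nat.le_pow_clog (by norm_num) _
  obtain ⟨E, E', hG, hcnt, hleft, hright⟩ := exists_final N r q hN8 hq2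
  have hlam : ((4 * q + 3 : ℕ) : ℝ) = (lam r N : ℝ) := rfl
  set l : ℝ := (lam r N : ℝ) with hl
  rw [hlam] at hG
  have hl3 : (3 : ℝ) ≤ l := by
    have h3 : 3 ≤ lam r N := by unfold lam; omega
    rw [hl]
    exact_mod_cast h3
  have hNpos : (0 : ℝ) < N := by
    have : 0 < N := by omega
    exact_mod_cast this
  have hmpos : (0 : ℝ) < ((N ^ (r + 2) : ℕ) : ℝ) := by
    push_cast
    positivity
  have hm0 : 0 < N ^ (r + 2) := by exact_mod_cast hmpos
  have hcpos : (0 : ℝ) < (cnt E' univ univ : ℝ) :=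
    lt_of_lt_of_le (by positivity) hcnt
  have hL : (0 : ℝ) < l * (1 + l) ^ (r + 1) := by positivity
  have hC : 0 < Cc l (r + 1) := Cc_pos l (by linarith) _
  have h1 := lower hn hm0 (by omega : 0 < N) hL hC hG hleft hright (by exact_mod_cast hcpos)
  refine le_trans ?_ h1
  have hCle : Cc l (r + 1) ≤ 3 * (1 + 5 * l) ^ (r + 1) := by
    have := Cc_le l (by linarith) (r + 1)
    linarith
  set m : ℝ := ((N ^ (r + 2) : ℕ) : ℝ) with hm
  have hmN : m = (N : ℝ) ^ r * N * N := by rw [hm]; push_cast; ring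
  rw [div_div, le_div_iff₀ (by positivity)]
  refine le_trans ?_ hcnt
  rw [le_div_iff₀ (by positivity)]
  have h2 : 2 * 4 ^ (r + 2) * (l * (1 + l) ^ (r + 1)) * Cc l (r + 1) ≤ N := by
    refine le_trans ?_ hN
    exact mul_le_mul_of_nonneg_left hCle (by positivity)
  calc (N : ℝ) ^ r * (l * (1 + l) ^ (r + 1) * (Cc l (r + 1) * N * (2 * m))) * 4 ^ (r + 2)
      = (N : ℝ) ^ r * N * m * (2 * 4 ^ (r + 2) * (l * (1 + l) ^ (r + 1)) * Cc l (r + 1)) := by
        ring
    _ ≤ (N : ℝ) ^ r * N * m * N := mul_le_mul_of_nonneg_left h2 (by positivity)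
    _ = m ^ 2 := by rw [hmN]; ring

/-- The exponent of g is eventually larger than any a < 1. -/
theorem exponent_lower (a : ℝ) (ha0 : 0 ≤ a) (ha : a < 1) : ∀ᶠ n : ℕ in atTop,
    a < Real.log (g n) / Real.log n := by
  obtain ⟨r, hr⟩ := exists_nat_ge (3 / (1 - a))
  have hr3 : 3 ≤ (r : ℝ) * (1 - a) := by
    rwa [div_le_iff₀ (by linarith)] at hr
  obtain ⟨N0, hN0⟩ := eventually_atTop.1 (pow_le_g r)
  set M := max N0 (4 ^ (r + 2) + 1) with hM
  filter_upwards [eventually_ge_atTop (2 * M ^ (r + 2))] with n hn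
  set N := Nat.findGreatest (fun N => 2 * N ^ (r + 2) ≤ n) n with hNdef
  have hself : ∀ K : ℕ, 2 * K ^ (r + 2) ≤ n → K ≤ n := by
    intro K hK
    have : K ≤ K ^ (r + 2) := Nat.le_self_pow (by omega) _
    omega
  have hMN : M ≤ N := Nat.le_findGreatest (hself M hn) hn
  have hspec : 2 * N ^ (r + 2) ≤ n :=
    Nat.findGreatest_spec (P := fun N => 2 * N ^ (r + 2) ≤ n) (hself M hn) hn
  have hgt : n < 2 * (N + 1) ^ (r + 2) := by
    by_contra hcon
    push Not at hcon
    exact Nat.findGreatest_is_greatest (P := fun N => 2 * N ^ (r + 2) ≤ n)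
      (k := N + 1) (Nat.lt_succ_self _) (hself _ hcon) hcon
  have hg := hN0 N ((le_max_left _ _).trans hMN) n hspec
  have hNbig : 4 ^ (r + 2) + 1 ≤ N := le_trans (le_max_right _ _) hMN
  have hN1 : 1 ≤ N := by
    have h40 : 0 < 4 ^ (r + 2) := by positivity
    omega
  have hNpos : (0 : ℝ) < N := by exact_mod_cast hN1
  have hlogN : ((r : ℝ) + 2) * Real.log 4 < Real.log N := by
    have h1 : (4 : ℝ) ^ (r + 2) < N := by
      have : 4 ^ (r + 2) < N := by omega
      exact_mod_cast this
    have h2 := Real.log_lt_log (by positivity) h1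
    rw [Real.log_pow] at h2
    push_cast at h2
    exact h2
  have hlog4 : 0 < Real.log 4 := Real.log_pos (by norm_num)
  have hlogNpos : 0 < Real.log N := lt_trans (by positivity) hlogN
  have hlogg : r * Real.log N ≤ Real.log (g n) := by
    have := Real.log_le_log (by positivity) hg
    rwa [Real.log_pow] at this
  have hnpos : (0 : ℝ) < n := by
    have : 0 < n := by
      have h3 : 0 < N ^ (r + 2) := by positivity
      omega
    exact_mod_cast this
  have hlogn : Real.log n ≤ (r + 2) * (Real.log N + Real.log 4) := by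
    have h1 : (n : ℝ) ≤ (4 * (N : ℝ)) ^ (r + 2) := by
      have h2 : n ≤ (4 * N) ^ (r + 2) := by
        refine hgt.le.trans ?_
        calc 2 * (N + 1) ^ (r + 2) ≤ 2 ^ (r + 2) * (N + 1) ^ (r + 2) := by
              apply Nat.mul_le_mul_right
              exact Nat.le_self_pow (by omega) 2
          _ = (2 * (N + 1)) ^ (r + 2) := by rw [mul_pow]
          _ ≤ (4 * N) ^ (r + 2) := Nat.pow_le_pow_left (by omega) _
      exact_mod_cast h2
    have h3 := Real.log_le_log hnpos h1
    rw [Real.log_pow, Real.log_mul (by norm_num) (by positivity)] at h3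
    push_cast at h3
    linarith
  have hlognpos : 0 < Real.log n := by
    apply Real.log_pos
    have h3 : 1 < n := by
      have h4 : 0 < N ^ (r + 2) := by positivity
      omega
    exact_mod_cast h3
  rw [lt_div_iff₀ hlognpos]
  calc a * Real.log n ≤ a * ((r + 2) * (Real.log N + Real.log 4)) :=
        mul_le_mul_of_nonneg_left hlogn ha0
    _ < r * Real.log N := by
        have h1 : a * ((r + 2) * Real.log 4) ≤ (r + 2) * Real.log 4 :=
          mul_le_of_le_one_left (by positivity) ha.le
        nlinarith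
    _ ≤ Real.log (g n) := hlogg

theorem exponent : Tendsto (fun n : ℕ => Real.log (g n) / Real.log n) atTop (𝓝 1) := by
  rw [tendsto_order]
  constructor
  · intro a ha
    have h := exponent_lower (max a 0) (le_max_right _ _) (max_lt ha one_pos)
    filter_upwards [h] with n hn
    exact lt_of_le_of_lt (le_max_left _ _) hn
  · intro a ha
    filter_upwards [eventually_ge_atTop 2, exponent_lower 0 le_rfl one_pos] with n hn hpos
    have hn' : (1 : ℝ) < n := by
      have : 1 < n := by omega
      exact_mod_cast this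
    have hlogn : 0 < Real.log n := Real.log_pos hn'
    refine lt_of_le_of_lt ?_ ha
    rw [div_le_one hlogn]
    have hlg : 0 < Real.log (g n) := by
      rwa [lt_div_iff₀ hlogn, zero_mul] at hpos
    have hgpos : g n ≠ 0 := by
      intro h0
      rw [h0, Real.log_zero] at hlg
      exact lt_irrefl _ hlg
    have hg0 : 0 < g n := by
      rcases lt_or_gt_of_ne hgpos with h | h
      · exfalso
        -- g is a supremum of nonneg or has positive lower bound; use log sign
        have h1 : 0 ≤ g n := by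
          unfold g
          apply Real.sSup_nonneg
          rintro x ⟨G, -, rfl⟩
          apply div_nonneg
          · unfold BipGraph.etaStar
            apply Real.sSup_nonneg
            rintro x ⟨F, -, -, rfl⟩
            apply mul_nonneg (Nat.cast_nonneg _)
            unfold BipGraph.eta
            apply Real.sInf_nonneg
            rintro x ⟨S, T, -, -, rfl⟩
            positivity
          · unfold BipGraph.mu
            apply Real.sSup_nonneg
            rintro x ⟨A, B, hAB, rfl⟩
            have := G.half_le_kappa hAB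
            apply div_nonneg (Nat.cast_nonneg _) (by linarith)
        linarith
      · exact h
    apply Real.log_le_log hg0
    have := g_le n
    have h0 : (0 : ℝ) ≤ n := Nat.cast_nonneg _
    linarith

/-- **The gap g(n) grows like n^(1+o(1))**; in particular it is not bounded by any power of
log n. -/
theorem result :
    Tendsto (fun n : ℕ => Real.log (g n) / Real.log n) atTop (𝓝 1) ∧
    ∀ k : ℕ, ∀ᶠ n : ℕ in atTop, (Real.log n) ^ k < g n := by
  refine ⟨exponent, ?_⟩
  intro k
  have h1 : (fun x : ℝ => Real.log x ^ (2 * k)) =o[atTop] (id : ℝ → ℝ) :=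
    Real.isLittleO_pow_log_id_atTop
  have h2 := (h1.bound (c := 1 / 2) (by norm_num))
  have h3 := tendsto_natCast_atTop_atTop (R := ℝ) |>.eventually h2
  filter_upwards [h3, exponent_lower (1 / 2) (by norm_num) (by norm_num),
    eventually_ge_atTop 2] with n hn hexp hn2
  have hn' : (1 : ℝ) < n := by
    have : 1 < n := by omega
    exact_mod_cast this
  have hlogn : 0 < Real.log n := Real.log_pos hn'
  simp only [id_eq, Real.norm_eq_abs] at hn
  rw [abs_of_nonneg (by positivity), abs_of_pos (by linarith)] at hn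
  rw [lt_div_iff₀ hlogn] at hexp
  have hgpos : 0 < g n := by
    have h1 : 0 ≤ g n := by
      unfold g
      apply Real.sSup_nonneg
      rintro x ⟨G, -, rfl⟩
      apply div_nonneg
      · unfold BipGraph.etaStar
        apply Real.sSup_nonneg
        rintro x ⟨F, -, -, rfl⟩
        apply mul_nonneg (Nat.cast_nonneg _)
        unfold BipGraph.eta
        apply Real.sInf_nonneg
        rintro x ⟨S, T, -, -, rfl⟩
        positivity
      · unfold BipGraph.mu
        apply Real.sSup_nonneg
        rintro x ⟨A, B, hAB, rfl⟩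
        have := G.half_le_kappa hAB
        apply div_nonneg (Nat.cast_nonneg _) (by linarith)
    rcases h1.lt_or_eq with h | h
    · exact h
    · exfalso
      rw [← h, Real.log_zero] at hexp
      linarith
  have h4 : (n : ℝ) < g n ^ 2 := by
    have h5 : Real.log n < Real.log (g n ^ 2) := by
      rw [Real.log_pow]; push_cast; linarith
    exact (Real.log_lt_log_iff (by linarith) (by positivity)).1 h5
  have h6 : (Real.log n ^ k) ^ 2 < g n ^ 2 := by
    rw [← pow_mul, mul_comm k 2]
    linarith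
  exact lt_of_pow_lt_pow_left₀ 2 hgpos.le h6

end Pool.Agent.Results.MP_28a56a_co.GapGrowth
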